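import Pool.Agent.helper25.OAU.Spec

set_option autoImplicit false

namespace Pool.Agent.helper25.OAU

open N68a2faeb N793a5b8e
open Pool.Agent.helper56.SGE hiding Pt
open Pool.Agent.helper56.SGE.QSys
open Pool.Agent.helper98.Tsei Pool.Agent.H54.PT
open Pool.Agent.helper14.AU

private lemma SR_col (p q a : Pt) (h : p ≠ q) (h0 : dt p q a = 0) :
    ∃ t : ℝ, a.1 = p.1 + t * (q.1 - p.1) ∧ a.2 = p.2 + t * (q.2 - p.2) := by
  unfold dt at h0
  by_cases h1 : q.1 - p.1 = 0
  · have h2 : q.2 - p.2 ≠ 0 := by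
      intro h2
      apply h
      ext
      · linarith
      · linarith
    refine ⟨(a.2 - p.2) / (q.2 - p.2), ?_, ?_⟩
    · rw [h1] at h0 ⊢
      have h3 : (a.1 - p.1) * (q.2 - p.2) = 0 := by linarith
      rcases mul_eq_zero.mp h3 with h4 | h4
      · linarith
      · exact absurd h4 h2
    · field_simp
      ring
  · refine ⟨(a.1 - p.1) / (q.1 - p.1), ?_, ?_⟩
    · field_simp
      ring
    · field_simp
      linarith

private lemma SR_ne (p q : Pt) (h : p ≠ q) : q.1 - p.1 ≠ 0 ∨ q.2 - p.2 ≠ 0 := by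
  by_contra hc
  push Not at hc
  apply h
  ext
  · linarith [hc.1]
  · linarith [hc.2]

theorem SR : SR_stmt := by
  constructor
  · intro p q r f0 f1 g k k' hpq h1 h2 hpg h3 hrk h4 hrk' h5 h6 hf
    obtain ⟨a, ha1, ha2⟩ := SR_col p q f0 hpq h1
    obtain ⟨b, hb1, hb2⟩ := SR_col p q g hpq h2
    obtain ⟨c, hc1, hc2⟩ := SR_col p g f1 hpg h3
    obtain ⟨s, hs1, hs2⟩ := SR_col r k f0 hrk h4
    obtain ⟨m, hm1, hm2⟩ := SR_col r k k' hrk h6
    obtain ⟨d, hd1, hd2⟩ := SR_col r k' f1 hrk' h5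
    have e1 : f1.1 = p.1 + (c * b) * (q.1 - p.1) := by rw [hc1, hb1]; ring
    have e2 : f1.2 = p.2 + (c * b) * (q.2 - p.2) := by rw [hc2, hb2]; ring
    have g1 : f1.1 = r.1 + (d * m) * (k.1 - r.1) := by rw [hd1, hm1]; ring
    have g2 : f1.2 = r.2 + (d * m) * (k.2 - r.2) := by rw [hd2, hm2]; ring
    have hab : c * b - a ≠ 0 := by
      intro h
      have : c * b = a := by linarith
      rw [this] at e1 e2
      apply hf
      ext
      · rw [ha1, e1]
      · rw [ha2, e2]
    have hsd : d * m - s ≠ 0 := by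
      intro h
      have : d * m = s := by linarith
      rw [this] at g1 g2
      apply hf
      ext
      · rw [hs1, g1]
      · rw [hs2, g2]
    -- `(cb - a) u = (dm - s) w`
    have u1 : (c * b - a) * (q.1 - p.1) = (d * m - s) * (k.1 - r.1) := by linarith
    have u2 : (c * b - a) * (q.2 - p.2) = (d * m - s) * (k.2 - r.2) := by linarith
    -- `r = f0 - s w`
    have key : (d * m - s) * dt p q r = 0 := by
      have r1 : r.1 - p.1 = a * (q.1 - p.1) - s * (k.1 - r.1) := by linarith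
      have r2 : r.2 - p.2 = a * (q.2 - p.2) - s * (k.2 - r.2) := by linarith
      unfold dt
      rw [r1, r2]
      linear_combination (-s * (q.1 - p.1)) * (-u2) + (s * (q.2 - p.2)) * (-u1)
    rcases mul_eq_zero.mp key with h | h
    · exact absurd h hsd
    · exact h
  · intro p q r s1 s2 hpq hpr h1 h2 h3 h0
    obtain ⟨a, ha1, ha2⟩ := SR_col p q s1 hpq h1
    obtain ⟨b, hb1, hb2⟩ := SR_col p r s2 hpr h2
    unfold dt at h3 h0
    rw [ha1, ha2, hb1, hb2] at h3
    have : (1 : ℝ) = 0 := by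
      rw [← h3]
      linear_combination (a * b) * h0
    norm_num at this

end Pool.Agent.helper25.OAU
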